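import Mathlib
import Pool.Agent.N183.U5.Stm2

/-!
# Simple abelian varieties with an unbalanced place

Let `Y` be a simple abelian variety and let `a` be an endomorphism such that `ℚ[a]` is a maximal
subfield of the endomorphism algebra, of degree `m`. The embeddings of `ℚ[a]` in `ℂ` are the roots
`s` of the minimal polynomial of `a`, and `ℂ ⊗ H_1(Y, ℚ)` is the sum of the eigenspaces `V_s`, of
dimension `r = 2 dim(Y) / m`. The relative signature at `s` is the pair `(p, q)` with `p + q = r`,
where `p` is the multiplicity of `s` as an eigenvalue of `a` on the tangent space.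
-/

namespace Pool.Agent.K9h17.S

open Module Pool.Agent.Y90 Pool.Agent.R915 Pool.Agent.N183.U5 Polynomial

/-- `(p, q)` is not a pair of consecutive binomial coefficients `C(d, k - 1)`, `C(d, k)` with
`2 ≤ k ≤ d - 1` (the first of these pairs are `(3, 3)`, `(4, 6)`, `(6, 4)`, `(5, 10)`, `(10, 10)`,
`(10, 5)`). These are the signatures of the exterior powers `Λ^k` of the standard representation of
the unitary group `U(1, d)`. -/
def NotBinomial (p q : ℕ) : Prop :=
  ∀ d k : ℕ, 2 ≤ k → k + 1 ≤ d → ¬(p = d.choose (k - 1) ∧ q = d.choose k)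

/-- For one embedding `s` of `ℚ[a]` the relative signature `(p, q)` is indefinite and unbalanced
(`p ≠ q`, `p, q > 0`), it is not a pair of consecutive binomial coefficients, and `p + q` does not
divide the product of the greatest common divisors of `p`, `q` and of `p'`, `q'`, where `(p', q')` is
the relative signature at `s` or at any other indefinite embedding. (If `p` and `q` are coprime the
last condition is satisfied.) -/
def UnbalancedMult (Y : AV) : Prop :=
  ∃ (a : Module.End ℚ Y.H) (Ψ : Module.End ℂ Y.T) (s : ℂ) (p q : ℕ), MaxField Y a ∧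
    (∀ v, Ψ (Y.per v) = Y.per (a v)) ∧ aeval s (minpoly ℚ a) = 0 ∧
    finrank ℂ (Ψ.eigenspace s) = p ∧ (minpoly ℚ a).natDegree * (p + q) = finrank ℚ Y.H ∧
    0 < p ∧ 0 < q ∧ p ≠ q ∧ NotBinomial p q ∧
    ∀ (s' : ℂ) (p' q' : ℕ), aeval s' (minpoly ℚ a) = 0 → finrank ℂ (Ψ.eigenspace s') = p' →
      p' + q' = p + q → 0 < p' → 0 < q' → ¬p + q ∣ p.gcd q * p'.gcd q'

end Pool.Agent.K9h17.S
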